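import Pool.Agent.H30.AW.Targets

/-!
# MP_70ba79_ag, board `aw_modules`, module PE2
-/

set_option autoImplicit false

namespace Pool.Agent.H69.AW.PE2

open MvPolynomial SC Pool.Agent.H27.LV Pool.Agent.H30.AV Pool.Agent.H30.AW

private lemma card_mon_le (b m m' : ℕ) (h : m ≤ m') :
    Fintype.card (Mon (b + 1) m) ≤ Fintype.card (Mon (b + 1) m') := by
  refine Fintype.card_le_of_injective
    (fun f => ⟨fun i => f.1 i + if i = 0 then m' - m else 0, ?_⟩) ?_
  · rw [Finset.sum_add_distrib, f.2]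
    simp
    omega
  · intro f g hfg
    apply Subtype.ext
    funext i
    have := congrFun (congrArg Subtype.val hfg) i
    simpa using this

private lemma cnt_mono (b M M' w : ℕ) (hM : M ≤ M') (hw : w ≤ M) : cnt b M w ≤ cnt b M' w := by
  unfold cnt
  apply Finset.sum_le_sum
  intro j hj
  have hj' : j < w := Finset.mem_range.1 hj
  rw [if_pos (by omega), if_pos (by omega)]
  apply Nat.mul_le_mul_left
  rcases b with _ | b
  · have : IsEmpty (Mon 0 (M - j)) := ⟨fun f => by
      have := f.2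
      simp at this
      omega⟩
    simp [Fintype.card_eq_zero]
  · exact card_mon_le _ _ _ (by omega)

/-- MUL for a set of indices -/
private lemma mulI (hMUL : T_MUL) (L τ : Type) [Field L] [Infinite L] [Fintype τ] (β q : ℕ)
    (P : Ideal (MvPolynomial τ L)) (T T' : Fin q → MvPolynomial τ L) (hP : P.IsPrime)
    (hPh : IsHom P) (htr : Algebra.trdeg L (MvPolynomial τ L ⧸ P) = (β + 2 : ℕ))
    (hT : ∀ i, (T i).IsHomogeneous 1) (hT' : ∀ i, (T' i).IsHomogeneous 1)
    (hQ : ∀ I : Finset (Fin q), 2 * I.card ≤ β + 2 → ∀ Q : Ideal (MvPolynomial τ L), Q.IsPrime →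
      IsHom Q → P ≤ Q → (∀ i ∈ I, T i ∈ Q ∧ T' i ∈ Q) →
      Algebra.trdeg L (MvPolynomial τ L ⧸ Q) + ((2 * I.card : ℕ) : Cardinal) ≤ (β + 2 : ℕ))
    (I : Finset (Fin q)) :
    ∃ (c : ℕ) (g : MvPolynomial τ L), g.IsHomogeneous c ∧ g ∉ P ∧ (2 * I.card ≤ β + 1 →
      ∀ (w : ℕ) (G : MvPolynomial τ L), (∀ i ∈ I, G ∈ (Ideal.span {T i, T' i}) ^ w ⊔ P) →
      g * G ∈ (∏ i ∈ I, (Ideal.span {T i, T' i}) ^ w) ⊔ P) := by
  by_cases hI : 2 * I.card ≤ β + 1
  · obtain ⟨c, g, h1, h2, h3⟩ := hMUL L τ β I.card P (fun j => T (I.orderIsoOfFin rfl j))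
      (fun j => T' (I.orderIsoOfFin rfl j)) (by omega) hP hPh htr (fun j => hT _) (fun j => hT' _)
      (by
        intro Q q1 q2 q3 q4 q5
        refine hQ I (by omega) Q q1 q2 q3 fun i hi => ?_
        obtain ⟨j, hj⟩ := (I.orderIsoOfFin rfl).surjective ⟨i, hi⟩
        have e1 := q4 j
        have e2 := q5 j
        rw [hj] at e1 e2
        exact ⟨e1, e2⟩)
    refine ⟨c, g, h1, h2, fun _ w G hG => ?_⟩
    have h4 := h3 w G fun j => hG _ (I.orderIsoOfFin rfl j).2
    have e : ∏ j : Fin I.card, (Ideal.span {T (I.orderIsoOfFin rfl j),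
        T' (I.orderIsoOfFin rfl j)}) ^ w = ∏ i ∈ I, (Ideal.span {T i, T' i}) ^ w := by
      rw [← Finset.prod_coe_sort I (fun i => (Ideal.span {T i, T' i}) ^ w)]
      exact Fintype.prod_equiv (I.orderIsoOfFin rfl).toEquiv _ _ (fun _ => rfl)
    rw [e] at h4
    exact h4
  · refine ⟨0, 1, isHomogeneous_one _ _, ?_, fun h => absurd h hI⟩
    intro h
    exact hP.ne_top (P.eq_top_iff_one.2 h)

theorem pf_PE2 (hCOD : T_COD) (hMUL : T_MUL) (hNU2 : T_NU2) : T_PE2 := by
  classical
  intro L τ _ _ _ m r β q P T T' hm hr hβ hq hP hPh htr hT hT' hQ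
  have hQ1 : ∀ (i : Fin q) (Q : Ideal (MvPolynomial τ L)), Q.IsPrime → IsHom Q → P ≤ Q →
      T i ∈ Q → T' i ∈ Q → Algebra.trdeg L (MvPolynomial τ L ⧸ Q) ≤ (β : Cardinal) := by
    intro i Q q1 q2 q3 q4 q5
    have h1 := hQ {i} (by simp) Q q1 q2 q3 (fun j hj => by
      rw [Finset.mem_singleton] at hj
      subst hj
      exact ⟨q4, q5⟩)
    have e1 : ((β + 2 : ℕ) : Cardinal) = (β : Cardinal) + ((2 : ℕ) : Cardinal) := by
      push_cast
      rfl
    rw [Finset.card_singleton, mul_one, e1] at h1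
    exact (Cardinal.add_nat_le_add_nat_iff 2).1 h1
  choose d d' c g hd hgh hgP hφ hE using fun i => hCOD L τ β P (T i) (T' i) hP hPh htr (hT i)
    (hT' i) (hQ1 i)
  choose cM gM hMh hMP hM using mulI hMUL L τ β q P T T' hP hPh htr hT hT' hQ
  obtain ⟨N, w, hwN, hwr, hN1, hcnt, hineq⟩ := hNU2 m r β q (∑ i, c i) (∑ i, d' i)
    (∑ I : Finset (Fin q), (cM I + ∑ i ∈ I, c i)) hm hr hβ hq
  have hq0 : 0 < q := by
    rcases Nat.eq_zero_or_pos q with h | h
    · subst h
      simp at hineq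
    · exact h
  have hw : 0 < w := by
    rcases Nat.eq_zero_or_pos w with h | h
    · subst h
      simp at hineq
    · exact h
  have : Nonempty (Fin q) := ⟨⟨0, hq0⟩⟩
  have hc : ∀ i, c i ≤ ∑ i, c i := fun i =>
    Finset.single_le_sum (f := c) (fun _ _ => Nat.zero_le _) (Finset.mem_univ i)
  have hd'le : ∀ i, d' i ≤ ∑ i, d' i := fun i =>
    Finset.single_le_sum (f := d') (fun _ _ => Nat.zero_le _) (Finset.mem_univ i)
  obtain ⟨i0, -, hi0⟩ := Finset.exists_max_image (Finset.univ : Finset (Fin q)) d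
    Finset.univ_nonempty
  choose φ hφ' using fun i => hφ i N w (by have := hd'le i; omega)
  obtain ⟨E, hEh, hEi⟩ := hE i0 N (by have := hd'le i0; omega)
  -- the linear map
  let comb : (Fin (d i0 * Fintype.card (Mon (β + 2) (N - d' i0))) → L) →ₗ[L] MvPolynomial τ L :=
    { toFun := fun l => ∑ j, C (l j) * E j
      map_add' := fun l l' => by
        simp only [Pi.add_apply, map_add, add_mul, Finset.sum_add_distrib]
      map_smul' := fun a l => by
        simp only [Pi.smul_apply, smul_eq_mul, map_mul, RingHom.id_apply, Finset.smul_sum,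
          MvPolynomial.smul_eq_C_mul, mul_assoc] }
  let Ψ : (Fin (d i0 * Fintype.card (Mon (β + 2) (N - d' i0))) → L) →ₗ[L]
      (∀ i, Fin (d i * cnt β (N + c i) w) → L) := LinearMap.pi fun i => (φ i).comp comb
  have hrank : Module.finrank L (∀ i, Fin (d i * cnt β (N + c i) w) → L) <
      Module.finrank L (Fin (d i0 * Fintype.card (Mon (β + 2) (N - d' i0))) → L) := by
    rw [Module.finrank_pi_fintype, Module.finrank_fin_fun]
    simp only [Module.finrank_fin_fun]
    have h1 : ∀ i ∈ (Finset.univ : Finset (Fin q)), d i * cnt β (N + c i) w ≤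
        d i0 * cnt β (N + ∑ i, c i) w := by
      intro i hi
      exact Nat.mul_le_mul (hi0 i hi) (cnt_mono _ _ _ _ (by have := hc i; omega) (by omega))
    have h2 := Finset.sum_le_sum h1
    rw [Finset.sum_const, Finset.card_univ, Fintype.card_fin, smul_eq_mul] at h2
    have h3 : Fintype.card (Mon (β + 2) (N - ∑ i, d' i)) ≤
        Fintype.card (Mon (β + 2) (N - d' i0)) :=
      card_mon_le (β + 1) _ _ (by have := hd'le i0; omega)
    calc ∑ i, d i * cnt β (N + c i) w ≤ q * (d i0 * cnt β (N + ∑ i, c i) w) := h2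
      _ = d i0 * (q * cnt β (N + ∑ i, c i) w) := by ring
      _ < d i0 * Fintype.card (Mon (β + 2) (N - ∑ i, d' i)) :=
          Nat.mul_lt_mul_of_pos_left hcnt (hd i0)
      _ ≤ d i0 * Fintype.card (Mon (β + 2) (N - d' i0)) := Nat.mul_le_mul_left _ h3
  have hker := LinearMap.ker_ne_bot_of_finrank_lt (f := Ψ) hrank
  obtain ⟨l, hl, hl0⟩ := Submodule.exists_mem_ne_zero_of_ne_bot hker
  have hl' : ∀ i, φ i (comb l) = 0 := by
    intro i
    have := congrFun (LinearMap.mem_ker.1 hl) i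
    simpa [Ψ] using this
  have hcombl : comb l = ∑ j, C (l j) * E j := rfl
  have hGh : (comb l).IsHomogeneous N := by
    rw [hcombl]
    apply IsHomogeneous.sum
    intro j _
    have := (isHomogeneous_C τ (l j)).mul (hEh j)
    simpa using this
  refine ⟨N, w, comb l, fun I => cM I + ∑ i ∈ I, c i, fun I => gM I * ∏ i ∈ I, g i, hN1, hwr,
    hineq, hGh, ?_, ?_, ?_⟩
  · intro hmem
    exact hl0 (hEi l (by rw [← hcombl]; exact hmem))
  · intro I
    refine ⟨(hMh I).mul (IsHomogeneous.prod _ _ _ fun i _ => hgh i), ?_⟩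
    intro hmem
    rcases hP.mem_or_mem hmem with h | h
    · exact hMP I h
    · obtain ⟨i, _, hi⟩ := (Ideal.IsPrime.prod_mem_iff (hp := hP)).1 h
      exact hgP i hi
  · intro I hI
    rw [mul_assoc]
    refine hM I hI w _ fun j hj => ?_
    rw [← Finset.mul_prod_erase I g hj]
    have e : g j * (∏ x ∈ I.erase j, g x) * comb l =
        (∏ x ∈ I.erase j, g x) * (g j * comb l) := by ring
    rw [e]
    exact Ideal.mul_mem_left _ _ (hφ' j _ hGh (hl' j))

end Pool.Agent.H69.AW.PE2
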